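import Pool.Agent.Helper56.RZ.GoalsD

/-!
# PACKET RZ3-OB (MP_f32c9c_an): orbits and the support, pointwise
-/

set_option autoImplicit false

open Set Filter Topology

namespace Pool.Agent.Helper14.RZ

open Pool.Agent.Helper56.RZ

/-- **OB** -/
theorem ob : StmtOB := by
  intro X _ K C H e B J h3 x
  have hf : ∀ y, (C.comp H e).f y = C.f (H.f y) := fun y => rfl
  have hs : ∀ y, (C.comp H e).f.symm y = H.f.symm (C.f.symm y) := fun y => rfl
  constructor
  · intro hback j hj1 hj2
    have key : ∀ i, i ≤ J → (C.comp H e).f.symm^[i] x = C.f.symm^[i] x := by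
      intro i
      induction i with
      | zero => intro _; rfl
      | succ i ih =>
        intro hi
        rw [Function.iterate_succ_apply', ih (by omega), hs, Function.iterate_succ_apply',
          Homeomorph.symm_apply_eq]
        have h5 := (h3 _ (hback (i + 1) (by omega) hi)).1
        rw [Function.iterate_succ_apply'] at h5
        exact h5.symm
    rw [key j hj2]
    exact h3 _ (hback j hj1 hj2)
  · intro h4 j hj1 hj2
    have key : ∀ i, i + 1 ≤ J → (C.comp H e).f^[i + 1] x = C.f^[i + 1] (H.f x) := by
      intro i
      induction i with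
      | zero =>
        intro _
        simp [hf]
      | succ i ih =>
        intro hi
        rw [Function.iterate_succ_apply', ih (by omega), hf,
          (h3 _ (h4 (i + 1) (by omega) (by omega))).1,
          ← Function.iterate_succ_apply' (C.f) (i + 1)]
    obtain ⟨i, rfl⟩ : ∃ i, j = i + 1 := ⟨j - 1, by omega⟩
    rw [key i hj2]
    exact h3 _ (h4 (i + 1) hj1 hj2)

end Pool.Agent.Helper14.RZ
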